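import Mathlib

namespace Pool.Agent.Results.MP_47eac2_co.Q1

/-- A flat: the set of common neighbours of all vertices of some set `W`. -/
def IsFlat {n : ℕ} (G : SimpleGraph (Fin n)) (F : Set (Fin n)) : Prop :=
  ∃ W : Set (Fin n), F = {x | ∀ w ∈ W, G.Adj w x}

/-- The c-rank: the height of the lattice of flats. -/
noncomputable def crk {n : ℕ} (G : SimpleGraph (Fin n)) : ℕ :=
  sSup {k | ∃ f : Fin (k + 1) → Set (Fin n), StrictMono f ∧ ∀ i, IsFlat G (f i)}

def Tri {n : ℕ} (G : SimpleGraph (Fin n)) (k : ℕ) (w v : ℕ → Fin n) : Prop :=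
  (∀ i < k, ¬ G.Adj (w i) (v i)) ∧ ∀ i j, i < j → j < k → G.Adj (w i) (v j)

variable {n : ℕ} {G : SimpleGraph (Fin n)} {k : ℕ} {w v : ℕ → Fin n}

lemma Tri.iv (h : Tri G k w v) {i j : ℕ} (hi : i < k) (hj : j < k) (e : v i = v j) : i = j := by
  rcases lt_trichotomy i j with c | c | c
  · exact absurd (e ▸ h.2 i j c hj) (h.1 i hi)
  · exact c
  · exact absurd (e ▸ h.2 j i c hi) (h.1 j hj)

lemma Tri.iw (h : Tri G k w v) {i j : ℕ} (hi : i < k) (hj : j < k) (e : w i = w j) : i = j := by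
  rcases lt_trichotomy i j with c | c | c
  · exact absurd (e ▸ h.2 i j c hj) (h.1 j hj)
  · exact c
  · exact absurd (e ▸ h.2 j i c hi) (h.1 i hi)

lemma Tri.le (h : Tri G k w v) : k ≤ n := by
  have := Finset.card_le_card_of_injOn (s := Finset.range k) (t := Finset.univ) v
    (fun _ _ => by simp) (fun i hi j hj e => h.iv (by simpa using hi) (by simpa using hj) e)
  simpa using this

lemma chain_iff (hn : 1 ≤ n) (k : ℕ) :
    (∃ f : Fin (k + 1) → Set (Fin n), StrictMono f ∧ ∀ i, IsFlat G (f i)) ↔ ∃ w v, Tri G k w v := by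
  constructor
  · rintro ⟨f, hf, hF⟩
    have : ∀ i : ℕ, ∃ a b : Fin n, ∀ hi : i < k, ¬ G.Adj a b ∧ b ∈ f ⟨k - i, by omega⟩ ∧
        ∀ x ∈ f ⟨k - i - 1, by omega⟩, G.Adj a x := by
      intro i
      by_cases hi : i < k
      · obtain ⟨W, hW⟩ := hF ⟨k - i - 1, by omega⟩
        obtain ⟨b, hb1, hb2⟩ := Set.exists_of_ssubset
          (hf (show (⟨k - i - 1, by omega⟩ : Fin (k + 1)) < ⟨k - i, by omega⟩ from by
            simp [Fin.lt_def]; omega))
        rw [hW] at hb2
        simp only [Set.mem_setOf_eq, not_forall] at hb2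
        obtain ⟨a, ha1, ha2⟩ := hb2
        exact ⟨a, b, fun _ => ⟨ha2, hb1, fun x hx => by rw [hW] at hx; exact hx a ha1⟩⟩
      · exact ⟨⟨0, hn⟩, ⟨0, hn⟩, fun h => absurd h hi⟩
    choose w v h using this
    refine ⟨w, v, fun i hi => (h i hi).1, fun i j hij hj => (h i (by omega)).2.2 _ ?_⟩
    exact hf.monotone (show (⟨k - j, by omega⟩ : Fin (k + 1)) ≤ ⟨k - i - 1, by omega⟩ from by
      simp [Fin.le_def]; omega) (h j hj).2.1
  · rintro ⟨w, v, h⟩
    refine ⟨fun i => {x | ∀ a ∈ w '' {t | t + i < k}, G.Adj a x}, fun i j hij => ?_,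
      fun i => ⟨_, rfl⟩⟩
    have h1 : (i : ℕ) < j := hij
    have h2 := j.2
    refine ⟨fun x hx a ⟨t, ht, e⟩ => hx a ⟨t, by simp at ht ⊢; omega, e⟩, fun hs => ?_⟩
    have := hs (a := v (k - j)) (fun a ⟨t, ht, e⟩ => e ▸ h.2 t _ (by simp at ht; omega) (by omega))
    exact h.1 (k - j) (by omega) (this _ ⟨k - j, by simp; omega, rfl⟩)

lemma crk_spec (hn : 1 ≤ n) (G : SimpleGraph (Fin n)) :
    (∃ w v, Tri G (crk G) w v) ∧ ∀ k w v, Tri G k w v → k ≤ crk G := by
  have hb : BddAbove {k | ∃ f : Fin (k + 1) → Set (Fin n), StrictMono f ∧ ∀ i, IsFlat G (f i)} :=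
    ⟨n, fun k hk => by obtain ⟨w, v, h⟩ := (chain_iff hn k).1 hk; exact h.le⟩
  refine ⟨(chain_iff hn _).1 (Nat.sSup_mem ⟨0, (chain_iff hn 0).2
    ⟨fun _ => ⟨0, hn⟩, fun _ => ⟨0, hn⟩, by simp [Tri]⟩⟩ hb), fun k w v h =>
    le_csSup hb ((chain_iff hn k).2 ⟨w, v, h⟩)⟩

open Finset in
lemma upper {l : ℕ} {y x : ℕ → Fin n} (h : Tri G k w v) (h' : Tri Gᶜ l y x) : k + l ≤ n + 2 := by
  classical
  by_contra hc
  let A : ℕ → Finset (Fin n) := fun i => (range i).image w
  let B : ℕ → Finset (Fin n) := fun i => (Ico i k).image v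
  let C : ℕ → Finset (Fin n) := fun j => (range j).image y
  let D : ℕ → Finset (Fin n) := fun j => (Ico j l).image x
  have hAB : ∀ i, ∀ a ∈ A i, ∀ b ∈ B i, G.Adj a b := by
    intro i a ha b hb
    obtain ⟨s, hs, rfl⟩ := mem_image.1 ha
    obtain ⟨t, ht, rfl⟩ := mem_image.1 hb
    simp at hs ht; exact h.2 s t (by omega) ht.2
  have hCD : ∀ i, ∀ a ∈ C i, ∀ b ∈ D i, Gᶜ.Adj a b := by
    intro i a ha b hb
    obtain ⟨s, hs, rfl⟩ := mem_image.1 ha
    obtain ⟨t, ht, rfl⟩ := mem_image.1 hb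
    simp at hs ht; exact h'.2 s t (by omega) ht.2
  have c1 : ∀ i ≤ k, (A i ∪ B i).card = k := by
    intro i hi
    rw [card_union_of_disjoint (disjoint_left.2 fun a ha hb => (hAB i a ha a hb).ne rfl),
      card_image_of_injOn fun s hs t ht e => h.iw (by simp at hs; omega) (by simp at ht; omega) e,
      card_image_of_injOn fun s hs t ht e => h.iv (by simp at hs; omega) (by simp at ht; omega) e]
    simp; omega
  have c2 : ∀ i ≤ l, (C i ∪ D i).card = l := by
    intro i hi
    rw [card_union_of_disjoint (disjoint_left.2 fun a ha hb => (hCD i a ha a hb).ne rfl),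
      card_image_of_injOn fun s hs t ht e => h'.iw (by simp at hs; omega) (by simp at ht; omega) e,
      card_image_of_injOn fun s hs t ht e => h'.iv (by simp at hs; omega) (by simp at ht; omega) e]
    simp; omega
  have tot : ∀ i ≤ k, ∀ j ≤ l, 3 ≤ (A i ∩ C j).card + (A i ∩ D j).card + (B i ∩ C j).card +
      (B i ∩ D j).card := by
    intro i hi j hj
    have e1 := card_union_add_card_inter (A i ∪ B i) (C j ∪ D j)
    have e2 := card_le_univ (A i ∪ B i ∪ (C j ∪ D j))
    rw [c1 i hi, c2 j hj, union_inter_distrib_right, inter_union_distrib_left,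
      inter_union_distrib_left] at e1
    have e3 := card_union_le (A i ∩ C j ∪ A i ∩ D j) (B i ∩ C j ∪ B i ∩ D j)
    have e4 := card_union_le (A i ∩ C j) (A i ∩ D j)
    have e5 := card_union_le (B i ∩ C j) (B i ∩ D j)
    simp only [Fintype.card_fin] at e2
    omega
  have x1 : ∀ i j, (A i ∩ C j).card = 0 ∨ (B i ∩ D j).card = 0 := by
    intro i j
    by_contra hh
    push Not at hh
    obtain ⟨a, ha⟩ := card_pos.1 (Nat.pos_of_ne_zero hh.1)
    obtain ⟨b, hb⟩ := card_pos.1 (Nat.pos_of_ne_zero hh.2)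
    rw [mem_inter] at ha hb
    exact ((SimpleGraph.compl_adj _ _ _).1 (hCD j a ha.2 b hb.2)).2 (hAB i a ha.1 b hb.1)
  have x2 : ∀ i j, (A i ∩ D j).card = 0 ∨ (B i ∩ C j).card = 0 := by
    intro i j
    by_contra hh
    push Not at hh
    obtain ⟨a, ha⟩ := card_pos.1 (Nat.pos_of_ne_zero hh.1)
    obtain ⟨b, hb⟩ := card_pos.1 (Nat.pos_of_ne_zero hh.2)
    rw [mem_inter] at ha hb
    exact ((SimpleGraph.compl_adj _ _ _).1 (hCD j b hb.2 a ha.2)).2 (hAB i a ha.1 b hb.1).symm
  have ins : ∀ {S S' T : Finset (Fin n)} (a : Fin n), S ⊆ insert a S' →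
      (S ∩ T).card ≤ (S' ∩ T).card + 1 := fun {S S' T} a hs =>
    (card_le_card (fun z hz => by
      have := hs (mem_inter.1 hz).1
      have := (mem_inter.1 hz).2
      simp only [mem_insert, mem_inter] at *; tauto)).trans (card_insert_le a (S' ∩ T))
  have sA : ∀ i, A (i + 1) ⊆ insert (w i) (A i) := fun i => by
    simp only [A, range_add_one, image_insert]; rfl
  have sC : ∀ i, C (i + 1) ⊆ insert (y i) (C i) := fun i => by
    simp only [C, range_add_one, image_insert]; rfl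
  have sB : ∀ i, B i ⊆ insert (v i) (B (i + 1)) := fun i z hz => by
    obtain ⟨t, ht, rfl⟩ := mem_image.1 hz
    by_cases e : t = i
    · simp [e]
    · exact mem_insert_of_mem (mem_image_of_mem _ (by simp at ht ⊢; omega))
  have sD : ∀ i, D i ⊆ insert (x i) (D (i + 1)) := fun i z hz => by
    obtain ⟨t, ht, rfl⟩ := mem_image.1 hz
    by_cases e : t = i
    · simp [e]
    · exact mem_insert_of_mem (mem_image_of_mem _ (by simp at ht ⊢; omega))
  have mB : ∀ i T, (B (i + 1) ∩ T).card ≤ (B i ∩ T).card := fun i T =>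
    card_le_card (inter_subset_inter_right (image_subset_image (Ico_subset_Ico_left (by omega))))
  have mC : ∀ j T, (T ∩ C j).card ≤ (T ∩ C (j + 1)).card := fun j T =>
    card_le_card (inter_subset_inter_left (image_subset_image (range_subset_range.2 (by omega))))
  have main : ∀ m i j, i ≤ k → j ≤ l → k - i + j = m → (A i ∩ C j).card = 0 →
      (A i ∩ D j).card = 0 → (B (i + 1) ∩ D j).card ≤ 1 → False := by
    intro m
    induction m using Nat.strong_induction_on with
    | _ m ih =>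
      intro i j hi hj hm a1 a2 a3
      by_cases e : i = k
      · have := tot i hi j hj
        have hB : B i = ∅ := by simp [B, e]
        simp only [hB, empty_inter, card_empty] at this
        omega
      by_cases r : (A (i + 1) ∩ C j).card = 0
      · have t1 := tot (i + 1) (by omega) j hj
        have t2 := ins (T := D j) _ (sA i)
        have t3 := x2 (i + 1) j
        have t4 := mB (i + 1) (D j)
        exact ih _ (by omega) (i + 1) j (by omega) hj rfl r (by omega) (by omega)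
      · rcases j with _ | j
        · simp [C] at r
        have t1 := tot i hi (j + 1) hj
        have t2 := x1 (i + 1) (j + 1)
        have t3 := ins (T := D (j + 1)) _ (sB i)
        have t4 := ins (T := B i) _ (sC j)
        have t5 := ins (T := B (i + 1)) _ (sD j)
        have t6 := x2 i j
        have t7 := mC j (A i)
        rw [inter_comm _ (B i), inter_comm _ (B i)] at t4
        rw [inter_comm _ (B (i + 1)), inter_comm _ (B (i + 1))] at t5
        exact ih _ (by omega) i j hi (by omega) rfl (by omega) (by omega) (by omega)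
  exact main _ 0 l (by omega) le_rfl rfl (by simp [A]) (by simp [A]) (by simp [D])

lemma full (h : Tri G n w v) : G = ⊤ := by
  have sv : ∀ z, ∃ j < n, v j = z := by
    have : Function.Injective fun j : Fin n => v j := fun i j e => Fin.ext (h.iv i.2 j.2 e)
    intro z
    obtain ⟨j, hj⟩ := Finite.injective_iff_surjective.1 this z
    exact ⟨j, j.2, hj⟩
  have e : ∀ i < n, w i = v i := by
    intro i
    induction i using Nat.strong_induction_on with
    | _ i ih =>
      intro hi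
      obtain ⟨j, hj, e⟩ := sv (w i)
      rcases lt_trichotomy i j with c | c | c
      · exact absurd e.symm (h.2 i j c hj).ne
      · rw [← e, c]
      · have := h.iw hj hi ((ih j c hj).trans e); omega
  ext a b
  refine ⟨fun hab => hab.ne, fun hab => ?_⟩
  obtain ⟨i, hi, rfl⟩ := sv a
  obtain ⟨j, hj, rfl⟩ := sv b
  rcases lt_trichotomy i j with c | c | c
  · exact e i hi ▸ h.2 i j c hj
  · exact absurd (c ▸ rfl) hab.ne
  · exact (e j hj ▸ h.2 j i c hi).symm

lemma crk_bot (hn : 1 ≤ n) : crk (⊥ : SimpleGraph (Fin n)) = 1 := by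
  obtain ⟨⟨w, v, h⟩, h2⟩ := crk_spec hn (⊥ : SimpleGraph (Fin n))
  have := h2 1 (fun _ => ⟨0, hn⟩) (fun _ => ⟨0, hn⟩) ⟨by simp, fun i j _ _ => by omega⟩
  by_contra hc
  exact h.2 0 1 (by omega) (by omega)

lemma crk_top (hn : 1 ≤ n) : crk (⊤ : SimpleGraph (Fin n)) = n := by
  obtain ⟨⟨w, v, h⟩, h2⟩ := crk_spec hn (⊤ : SimpleGraph (Fin n))
  have := h2 n (fun i => ⟨i % n, Nat.mod_lt _ hn⟩) (fun i => ⟨i % n, Nat.mod_lt _ hn⟩)
    ⟨by simp, fun i j h1 h2 => by
      simp [Nat.mod_eq_of_lt h2, Nat.mod_eq_of_lt (h1.trans h2)]; omega⟩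
  have := h.le
  omega

lemma cases_full (hn : 1 ≤ n) (G : SimpleGraph (Fin n)) :
    crk G + crk Gᶜ = n + 1 ∨ (crk G < n ∧ crk Gᶜ < n) := by
  obtain ⟨w, v, h⟩ := (crk_spec hn G).1
  obtain ⟨y, x, h'⟩ := (crk_spec hn Gᶜ).1
  have := h.le
  have := h'.le
  by_cases c1 : crk G = n
  · rw [c1] at h
    left; rw [full h, compl_top, crk_top hn, crk_bot hn]
  by_cases c2 : crk Gᶜ = n
  · rw [c2] at h'
    have e : G = ⊥ := by rw [← compl_compl G, full h', compl_top]
    left; rw [e, compl_bot, crk_top hn, crk_bot hn, add_comm]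
  omega

lemma three (h : Tri G k w v) (hk : 3 ≤ k) : 3 ≤ G.edgeSet.ncard := by
  have a1 := h.2 0 1 (by omega) (by omega)
  have a2 := h.2 0 2 (by omega) (by omega)
  have a3 := h.2 1 2 (by omega) (by omega)
  have b1 : v 1 ≠ v 2 := fun e => by have := h.iv (by omega) (by omega) e; omega
  have b2 : w 0 ≠ w 1 := fun e => by have := h.iw (by omega) (by omega) e; omega
  have b3 := a2.ne
  have b4 := a3.ne
  have : ({s(w 0, v 1), s(w 0, v 2), s(w 1, v 2)} : Set (Sym2 (Fin n))).ncard = 3 :=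
    Set.ncard_eq_three.2 ⟨_, _, _, by simp; tauto, by simp; tauto, by simp; tauto, rfl⟩
  rw [← this]
  refine Set.ncard_le_ncard ?_ (Set.toFinite _)
  rintro e (rfl | rfl | rfl) <;> assumption

def P4 (m : ℕ) : SimpleGraph (Fin (m + 4)) :=
  SimpleGraph.fromEdgeSet {s(⟨0, by omega⟩, ⟨1, by omega⟩), s(⟨1, by omega⟩, ⟨2, by omega⟩),
    s(⟨2, by omega⟩, ⟨3, by omega⟩)}

lemma P4_adj (m : ℕ) (a b : Fin (m + 4)) : (P4 m).Adj a b ↔
    (a : ℕ) ≤ 3 ∧ (b : ℕ) ≤ 3 ∧ ((a : ℕ) + 1 = b ∨ (b : ℕ) + 1 = a) := by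
  simp only [P4, SimpleGraph.fromEdgeSet_adj, Set.mem_insert_iff, Set.mem_singleton_iff,
    Sym2.eq_iff, Fin.ext_iff, ne_eq]
  omega

lemma P4_edges (m : ℕ) : (P4 m).edgeSet.ncard = 3 := by
  refine Set.ncard_eq_three.2 ⟨s(⟨0, by omega⟩, ⟨1, by omega⟩), s(⟨1, by omega⟩, ⟨2, by omega⟩),
    s(⟨2, by omega⟩, ⟨3, by omega⟩), by simp, by simp, by simp, ?_⟩
  rw [P4, SimpleGraph.edgeSet_fromEdgeSet]
  refine sdiff_eq_left.2 (Set.disjoint_left.2 ?_)
  rintro e (rfl | rfl | rfl) <;> simp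

lemma P4_sum (m : ℕ) : m + 4 + 2 ≤ crk (P4 m) + crk (P4 m)ᶜ := by
  have h1 := (crk_spec (by omega) (P4 m)).2 3
    (fun i => ⟨if i = 0 then 1 else if i = 1 then 3 else 2, by split_ifs <;> omega⟩)
    (fun i => ⟨if i = 0 then 1 else if i = 1 then 0 else 2, by split_ifs <;> omega⟩)
    ⟨fun i hi => by rw [P4_adj]; dsimp only; split_ifs <;> first | omega | (simp only [not_true_eq_false, not_and, true_and, and_true, Nat.le_refl, not_false_eq_true, and_false, false_and]; omega) | (simp; omega) | simp,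
      fun i j h1 h2 => by rw [P4_adj]; dsimp only; split_ifs <;> first | omega | (simp only [not_true_eq_false, not_and, true_and, and_true, Nat.le_refl, not_false_eq_true, and_false, false_and]; omega) | (simp; omega) | simp⟩
  have h2 := (crk_spec (by omega) (P4 m)ᶜ).2 (m + 3)
    (fun i => ⟨if i < m then i + 4 else if i = m then 0 else if i = m + 1 then 1 else 3,
      by split_ifs <;> omega⟩)
    (fun i => ⟨if i < m then i + 4 else if i = m then 0 else if i = m + 1 then 2 else 3,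
      by split_ifs <;> omega⟩)
    ⟨fun i hi => by
      rw [SimpleGraph.compl_adj, P4_adj, Ne, Fin.ext_iff]; dsimp only; split_ifs <;> first | omega | (simp only [not_true_eq_false, not_and, true_and, and_true, Nat.le_refl, not_false_eq_true, and_false, false_and]; omega) | (simp; omega) | simp,
      fun i j h1 h2 => by
      rw [SimpleGraph.compl_adj, P4_adj, Ne, Fin.ext_iff]; dsimp only; split_ifs <;> first | omega | (simp only [not_true_eq_false, not_and, true_and, and_true, Nat.le_refl, not_false_eq_true, and_false, false_and]; omega) | (simp; omega) | simp⟩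
  omega

theorem result (n : ℕ) (hn : 1 ≤ n) :
    IsGreatest {s | ∃ G : SimpleGraph (Fin n), crk G + crk Gᶜ = s}
      (if n ≤ 3 then n + 1 else n + 2) ∧
    IsLeast {e | ∃ G : SimpleGraph (Fin n),
      crk G + crk Gᶜ = (if n ≤ 3 then n + 1 else n + 2) ∧ G.edgeSet.ncard = e}
      (if n ≤ 3 then 0 else 3) := by
  have up : ∀ G : SimpleGraph (Fin n), crk G + crk Gᶜ ≤ n + 2 := fun G => by
    obtain ⟨w, v, h⟩ := (crk_spec hn G).1
    obtain ⟨y, x, h'⟩ := (crk_spec hn Gᶜ).1
    exact upper h h'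
  split_ifs with c
  · have hb : crk (⊥ : SimpleGraph (Fin n)) + crk (⊥ : SimpleGraph (Fin n))ᶜ = n + 1 := by
      rw [compl_bot, crk_top hn, crk_bot hn, add_comm]
    refine ⟨⟨⟨⊥, hb⟩, ?_⟩, ⟨⊥, hb, by simp⟩, fun _ _ => Nat.zero_le _⟩
    rintro s ⟨G, rfl⟩
    have := cases_full hn G
    omega
  · obtain ⟨m, rfl⟩ : ∃ m, n = m + 4 := ⟨n - 4, by omega⟩
    have hb := le_antisymm (up (P4 m)) (P4_sum m)
    refine ⟨⟨⟨_, hb⟩, ?_⟩, ⟨_, hb, P4_edges m⟩, ?_⟩
    · rintro s ⟨G, rfl⟩; exact up G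
    · rintro e ⟨G, hG, rfl⟩
      obtain ⟨w, v, h⟩ := (crk_spec hn G).1
      have := cases_full hn G
      exact three h (by omega)

end Pool.Agent.Results.MP_47eac2_co.Q1
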